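import Pool.Agent.H87.EBK.Stmts

/-! Board `ebk`, row MPT. -/

set_option autoImplicit false

namespace Pool.EBK

namespace MPTH

theorem odd_parts {r : ℚ} (hr : r ≠ 0) (hv : padicValRat 2 r = 0) :
    ¬ (2 : ℤ) ∣ r.num ∧ ¬ 2 ∣ r.den := by
  have hn : r.num ≠ 0 := Rat.num_ne_zero.2 hr
  have hd : r.den ≠ 0 := r.den_nz
  have hc : Nat.Coprime r.num.natAbs r.den := r.reduced
  have hv2 : (padicValNat 2 r.num.natAbs : ℤ) - padicValNat 2 r.den = 0 := hv
  have hnb : ¬ (2 ∣ r.num.natAbs ∧ 2 ∣ r.den) := by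
    rintro ⟨h1, h2⟩
    have := Nat.dvd_gcd h1 h2
    rw [hc] at this
    omega
  constructor
  · intro h
    have h1 : 2 ∣ r.num.natAbs := Int.natCast_dvd.1 (by exact_mod_cast h)
    have h2 : ¬ 2 ∣ r.den := fun h2 => hnb ⟨h1, h2⟩
    have h3 : padicValNat 2 r.den = 0 := padicValNat.eq_zero_of_not_dvd h2
    have h4 : 1 ≤ padicValNat 2 r.num.natAbs :=
      one_le_padicValNat_of_dvd (Int.natAbs_ne_zero.2 hn) h1
    omega
  · intro h
    have h2 : ¬ 2 ∣ r.num.natAbs := fun h2 => hnb ⟨h2, h⟩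
    have h3 : padicValNat 2 r.num.natAbs = 0 := padicValNat.eq_zero_of_not_dvd h2
    have h4 : 1 ≤ padicValNat 2 r.den := one_le_padicValNat_of_dvd hd h
    omega

theorem add_one {r : ℚ} (hr : r ≠ 0) (hv : v r = 0) (h1 : r + 1 ≠ 0) : 1 ≤ v (r + 1) := by
  obtain ⟨hn, hd⟩ := odd_parts hr hv
  have hd0 : (r.den : ℚ) ≠ 0 := Nat.cast_ne_zero.2 r.den_nz
  have he : r + 1 = ((r.num + r.den : ℤ) : ℚ) / ((r.den : ℤ) : ℚ) := by
    rw [eq_div_iff (by exact_mod_cast hd0)]
    push_cast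
    rw [add_mul, Rat.mul_den_eq_num, one_mul]
  have hm0 : (r.num + r.den : ℤ) ≠ 0 := by
    intro h
    rw [he, h] at h1
    simp at h1
  have hm : (2 : ℤ) ∣ r.num + r.den := by
    have : ¬ (2 : ℤ) ∣ (r.den : ℤ) := by
      intro h
      exact hd (by exact_mod_cast h)
    omega
  have h2 : (1 : ℤ) ≤ padicValRat 2 (((r.num + r.den : ℤ)) : ℚ) := by
    rw [padicValRat.of_int]
    have : 1 ≤ padicValInt 2 (r.num + r.den) :=
      one_le_padicValNat_of_dvd (Int.natAbs_ne_zero.2 hm0) (Int.natCast_dvd.1 (by exact_mod_cast hm))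
    exact_mod_cast this
  have h3 : padicValRat 2 (((r.den : ℤ)) : ℚ) = 0 := by
    rw [Int.cast_natCast, padicValRat.of_nat, padicValNat.eq_zero_of_not_dvd hd]
    rfl
  show 1 ≤ padicValRat 2 (r + 1)
  rw [he, padicValRat.div (by exact_mod_cast hm0) (by exact_mod_cast hd0), h3]
  omega

theorem add_ge {x y : ℚ} (hx : x ≠ 0) (hy : y ≠ 0) (hxy : v x = v y) (hs : x + y ≠ 0) :
    v y + 1 ≤ v (x + y) := by
  have h1 : v (x / y) = 0 := by
    show padicValRat 2 (x / y) = 0
    rw [padicValRat.div hx hy]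
    have : padicValRat 2 x = padicValRat 2 y := hxy
    omega
  have h2 : x + y = y * (x / y + 1) := by
    field_simp
  have h3 : x / y + 1 ≠ 0 := by
    intro h
    rw [h2, h, mul_zero] at hs
    exact hs rfl
  have h4 := add_one (div_ne_zero hx hy) h1 h3
  have h5 : v (x + y) = v y + v (x / y + 1) := by
    rw [h2]
    exact padicValRat.mul hy h3
  omega

theorem sq_sub {x y : ℚ} (hx : 0 < x) (hy : 0 < y) (hxy : v x = v y) (hne : x ≠ y) :
    2 * v y + 3 ≤ v (x ^ 2 - y ^ 2) := by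
  have hs : x + y ≠ 0 := (add_pos hx hy).ne'
  have hd : x - y ≠ 0 := sub_ne_zero.2 hne
  have hA := add_ge hx.ne' hy.ne' hxy hs
  have hB : v y + 1 ≤ v (x - y) := by
    have hneg : v (-y) = v y := padicValRat.neg y
    have := add_ge (y := -y) hx.ne' (neg_ne_zero.2 hy.ne') (hxy.trans hneg.symm)
      (by rwa [← sub_eq_add_neg])
    rwa [hneg, ← sub_eq_add_neg] at this
  have hm : v (x ^ 2 - y ^ 2) = v (x - y) + v (x + y) := by
    have : x ^ 2 - y ^ 2 = (x - y) * (x + y) := by ring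
    rw [this]
    exact padicValRat.mul hd hs
  have h2 : v (2 * y) = v y + 1 := by
    have h0 : v (2 : ℚ) = 1 := by
      have := padicValRat.self (p := 2) one_lt_two
      exact_mod_cast this
    have h3 : v (2 * y) = v 2 + v y := padicValRat.mul two_ne_zero hy.ne'
    omega
  rcases eq_or_lt_of_le hB with h | h
  · have h4 := add_ge (x := x - y) (y := 2 * y) hd (mul_ne_zero two_ne_zero hy.ne') (by omega)
      (by
        have : x - y + 2 * y = x + y := by ring
        rwa [this])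
    have h5 : x - y + 2 * y = x + y := by ring
    rw [h5] at h4
    omega
  · omega

end MPTH

theorem mpt (hD : DBL) (hF : FER) : MPT := by
  intro a b c hp ht hac hcb hm
  obtain ⟨d, hd, hv⟩ := hD a b c hp ht
  refine ⟨d, hd, ?_⟩
  have ha : 0 < a := hp.1
  have hb : 0 < b := hp.2.1
  have hc : 0 < c := ht.1
  have hab : v (a * b) = v a + v b := padicValRat.mul ha.ne' hb.ne'
  have hcc : v (c ^ 2) = 2 * v c := by
    rw [sq]
    have h : v (c * c) = v c + v c := padicValRat.mul hc.ne' hc.ne'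
    omega
  have h1 := MPTH.sq_sub (x := c ^ 2) (y := a * b) (by positivity) (by positivity) (by omega)
    (hF a b c hp)
  have h2 : (c ^ 2) ^ 2 - (a * b) ^ 2 = c ^ 4 - a ^ 2 * b ^ 2 := by ring
  rw [h2] at h1
  rw [min_eq_left hac.le, min_eq_right hcb.le] at hv
  omega

end Pool.EBK
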